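import Pool.Agent.Run7.h245.NF.Gf

/-!
# The cubic polynomial over the rationals, congruent to `x ^ 3 + x + 1` modulo `16`
-/

set_option autoImplicit false
set_option linter.all false

open Polynomial NumberField IsDedekindDomain

namespace Pool.Agent.Run7.h942.DI

open Pool.Agent.N352.PF
open Pool.Agent.Run7.h245.NF (exists_v3)

/-- every element of `𝓞 ℚ` is an integer -/
theorem exists_int (x : 𝓞 ℚ) : ∃ n : ℤ, x = (n : 𝓞 ℚ) := by
  refine ⟨Rat.ringOfIntegersEquiv x, ?_⟩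
  apply Rat.ringOfIntegersEquiv.injective
  rw [map_intCast]
  simp

/-- an even integer, or an odd one -/
theorem even_odd (v : HeightOneSpectrum (𝓞 ℚ)) (h2 : (2 : 𝓞 ℚ) ∈ v.asIdeal) (x : 𝓞 ℚ) :
    ((2 : 𝓞 ℚ) ∣ x ∧ x ∈ v.asIdeal) ∨ (x - 1 ∈ v.asIdeal ∧ x ∉ v.asIdeal) := by
  obtain ⟨n, rfl⟩ := exists_int x
  rcases Int.even_or_odd' n with ⟨k, rfl | rfl⟩
  · left
    have h : (2 : 𝓞 ℚ) ∣ ((2 * k : ℤ) : 𝓞 ℚ) := ⟨k, by push_cast; ring⟩
    refine ⟨h, ?_⟩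
    obtain ⟨c, hc⟩ := h
    rw [hc]
    exact Ideal.mul_mem_right _ _ h2
  · right
    have h : (((2 * k + 1 : ℤ) : 𝓞 ℚ)) - 1 ∈ v.asIdeal := by
      have : (((2 * k + 1 : ℤ) : 𝓞 ℚ)) - 1 = 2 * (k : 𝓞 ℚ) := by push_cast; ring
      rw [this]
      exact Ideal.mul_mem_right _ _ h2
    refine ⟨h, fun h3 => ?_⟩
    apply v.isPrime.ne_top
    rw [Ideal.eq_top_iff_one]
    have := Ideal.sub_mem _ h3 h
    simpa using this

theorem span_two (v : HeightOneSpectrum (𝓞 ℚ)) (h2 : (2 : 𝓞 ℚ) ∈ v.asIdeal) :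
    v.asIdeal = Ideal.span {(2 : 𝓞 ℚ)} := by
  apply le_antisymm
  · intro x hx
    rw [Ideal.mem_span_singleton]
    rcases even_odd v h2 x with h | h
    · exact h.1
    · exact absurd hx h.2
  · rw [Ideal.span_le]
    intro x hx
    rw [Set.mem_singleton_iff] at hx
    rw [hx]
    exact h2

theorem exists_v2 : ∃ v : HeightOneSpectrum (𝓞 ℚ), (2 : 𝓞 ℚ) ∈ v.asIdeal := by
  have hu : ¬ IsUnit (2 : 𝓞 ℚ) := by
    intro h
    have h2 := h.map Rat.ringOfIntegersEquiv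
    rw [map_ofNat] at h2
    rw [Int.isUnit_iff] at h2
    omega
  have hne : Ideal.span {(2 : 𝓞 ℚ)} ≠ ⊤ := by
    rw [Ne, Ideal.span_singleton_eq_top]
    exact hu
  obtain ⟨P, hP, hle⟩ := Ideal.exists_le_maximal _ hne
  have h2 : (2 : 𝓞 ℚ) ∈ P := hle (Ideal.mem_span_singleton_self _)
  refine ⟨⟨P, hP.isPrime, ?_⟩, h2⟩
  intro h
  rw [h, Ideal.mem_bot] at h2
  exact two_ne_zero h2

/-- `x ^ 3 + x + 1` at the prime over `2` -/
theorem base2 (v : HeightOneSpectrum (𝓞 ℚ)) (h2 : (2 : 𝓞 ℚ) ∈ v.asIdeal) :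
    ∃ f : (𝓞 ℚ ⧸ v.asIdeal)[X], f.Monic ∧ f.natDegree = 3 ∧ f.coeff 2 = 0 ∧ Irreducible f ∧
      f.Separable ∧ f.coeff 0 = 1 ∧ f.coeff 1 = 1 := by
  have hmax : v.asIdeal.IsMaximal := v.isMaximal
  letI : Field (𝓞 ℚ ⧸ v.asIdeal) := Ideal.Quotient.field v.asIdeal
  have hfin : Finite (𝓞 ℚ ⧸ v.asIdeal) := Ideal.finiteQuotientOfFreeOfNeBot v.asIdeal v.ne_bot
  have hdeg : (X + 1 : (𝓞 ℚ ⧸ v.asIdeal)[X]).degree < ((3 : ℕ) : WithBot ℕ) := by
    refine lt_of_le_of_lt (degree_add_le _ _) ?_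
    rw [degree_X, degree_one]
    exact max_lt (by exact_mod_cast (by norm_num : 1 < 3)) (by exact_mod_cast (by norm_num : 0 < 3))
  have hm : (X ^ 3 + (X + 1) : (𝓞 ℚ ⧸ v.asIdeal)[X]).Monic := monic_X_pow_add hdeg
  have hnd : (X ^ 3 + (X + 1) : (𝓞 ℚ ⧸ v.asIdeal)[X]).natDegree = 3 := by
    rw [natDegree_add_eq_left_of_degree_lt (by rw [degree_X_pow]; exact hdeg), natDegree_X_pow]
  have hirr : Irreducible (X ^ 3 + (X + 1) : (𝓞 ℚ ⧸ v.asIdeal)[X]) := by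
    rw [hm.irreducible_iff_roots_eq_zero_of_degree_le_three (by rw [hnd]; norm_num)
      (by rw [hnd])]
    rw [Multiset.eq_zero_iff_forall_notMem]
    intro x hx
    rw [mem_roots hm.ne_zero, IsRoot.def, eval_add, eval_pow, eval_X, eval_add, eval_X,
      eval_one] at hx
    obtain ⟨y, rfl⟩ := Ideal.Quotient.mk_surjective x
    have h20 : (Ideal.Quotient.mk v.asIdeal) 2 = 0 := Ideal.Quotient.eq_zero_iff_mem.2 h2
    rcases even_odd v h2 y with h | h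
    · rw [Ideal.Quotient.eq_zero_iff_mem.2 h.2] at hx
      norm_num at hx
    · have h1 : (Ideal.Quotient.mk v.asIdeal) y = 1 := by
        have := (Ideal.Quotient.mk_eq_mk_iff_sub_mem y 1).2 h.1
        rw [this, map_one]
      rw [h1] at hx
      have h22 : (2 : 𝓞 ℚ ⧸ v.asIdeal) = 0 := by
        rw [← h20, map_ofNat]
      have : (1 : 𝓞 ℚ ⧸ v.asIdeal) = 0 := by
        linear_combination hx - h22
      exact one_ne_zero this
  refine ⟨X ^ 3 + (X + 1), hm, hnd, ?_, hirr, PerfectField.separable_of_irreducible hirr, ?_, ?_⟩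
  · rw [coeff_add, coeff_X_pow, coeff_add, coeff_X, coeff_one]
    norm_num
  · rw [coeff_add, coeff_X_pow, coeff_add, coeff_X, coeff_one]
    norm_num
  · rw [coeff_add, coeff_X_pow, coeff_add, coeff_X, coeff_one]
    norm_num

/-- one prime ideal, with lifts of the coefficients -/
theorem exists_v (v : HeightOneSpectrum (𝓞 ℚ)) :
    ∃ (f : (𝓞 ℚ ⧸ v.asIdeal)[X]) (x : ℕ → 𝓞 ℚ), f.Monic ∧ f.natDegree = 3 ∧ f.coeff 2 = 0 ∧
      Irreducible f ∧ f.Separable ∧ (∀ j, j < 2 → Ideal.Quotient.mk v.asIdeal (x j) = f.coeff j) ∧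
      ((2 : 𝓞 ℚ) ∈ v.asIdeal → ∀ j, x j = 1) := by
  by_cases h2 : (2 : 𝓞 ℚ) ∈ v.asIdeal
  · obtain ⟨f, h1, h3, h4, h5, h6, h7, h8⟩ := base2 v h2
    refine ⟨f, fun _ => 1, h1, h3, h4, h5, h6, ?_, fun _ _ => rfl⟩
    intro j hj
    rw [map_one]
    rcases Nat.lt_or_ge j 1 with h | h
    · obtain rfl : j = 0 := by omega
      exact h7.symm
    · obtain rfl : j = 1 := by omega
      exact h8.symm
  · obtain ⟨f, h1, h3, h4, h5, h6⟩ := exists_v3 ℚ v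
    choose x hx using fun j => Ideal.Quotient.mk_surjective (f.coeff j)
    exact ⟨f, x, h1, h3, h4, h5, h6, fun j _ => hx j, fun h => absurd h h2⟩

/-- The polynomial. -/
theorem gf2 (M : ℕ) :
    ∃ (W : ℕ) (f₁ : (𝓞 ℚ)[X]), f₁.Monic ∧ f₁.natDegree = 2 * 1 + 1 ∧
      f₁.coeff (2 * 1) = 0 ∧ 0 < W ∧
      2 ∣ W ∧ (∀ v : HeightOneSpectrum (𝓞 ℚ), (2 : 𝓞 ℚ) ∈ v.asIdeal → Irreducible (rv v f₁)) ∧
      (∀ v : HeightOneSpectrum (𝓞 ℚ), (W : 𝓞 ℚ) ∈ v.asIdeal → (rv v f₁).Separable) ∧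
      (∀ p : ℕ, p.Prime → p ≤ M → p ∣ W) ∧
      (∀ v : HeightOneSpectrum (𝓞 ℚ), (W : 𝓞 ℚ) ∈ v.asIdeal → Irreducible (rv v f₁)) ∧
      16 ∣ W ∧ (16 : 𝓞 ℚ) ∣ f₁.coeff 1 - 1 ∧ (16 : 𝓞 ℚ) ∣ f₁.coeff 0 - 1 := by
  classical
  set W : ℕ := 8 * primorial (max M 2) with hW
  have hWp : ∀ p : ℕ, p.Prime → p ≤ max M 2 → p ∣ W := fun p hp h =>
    ((hp.dvd_primorial_iff).mpr h).mul_left _
  have hW0 : 0 < W := by
    have := primorial_pos (max M 2)
    omega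
  have h16 : 16 ∣ W := by
    obtain ⟨c, hc⟩ := (Nat.prime_two.dvd_primorial_iff).mpr (le_max_right M 2)
    exact ⟨c, by rw [hW, hc]; ring⟩
  choose f x hf1 hf2 hf3 hf4 hf5 hx hx1 using exists_v
  have hWne : Ideal.span {(W : 𝓞 ℚ)} ≠ 0 := by
    rw [Ne, Ideal.zero_eq_bot, Ideal.span_singleton_eq_bot]
    exact_mod_cast hW0.ne'
  have hfinS := Ideal.finite_factors hWne
  set T : Finset (HeightOneSpectrum (𝓞 ℚ)) := hfinS.toFinset with hT
  have hmem : ∀ v : HeightOneSpectrum (𝓞 ℚ), (W : 𝓞 ℚ) ∈ v.asIdeal → v ∈ T := by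
    intro v hv
    rw [hT, Set.Finite.mem_toFinset, Set.mem_setOf_eq, Ideal.dvd_span_singleton]
    exact hv
  have h2W : 2 ∣ W := hWp 2 Nat.prime_two (le_max_right _ _)
  have hmem2 : ∀ v : HeightOneSpectrum (𝓞 ℚ), (2 : 𝓞 ℚ) ∈ v.asIdeal → (W : 𝓞 ℚ) ∈ v.asIdeal := by
    intro v hv
    obtain ⟨m, hm⟩ := h2W
    rw [hm, Nat.cast_mul, Nat.cast_ofNat]
    exact Ideal.mul_mem_right _ _ hv
  have hcrt : ∀ j : ℕ, ∃ a : 𝓞 ℚ, ∀ v ∈ T, a - x v j ∈ v.asIdeal ^ 16 := by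
    intro j
    obtain ⟨a, ha⟩ := IsDedekindDomain.exists_forall_sub_mem_ideal (s := T)
      (fun v => v.asIdeal) (fun _ => 16) (fun v _ => v.prime)
      (fun v _ w _ hvw h => hvw (HeightOneSpectrum.ext h)) (fun v => x v j)
    exact ⟨a, fun v hv => ha v hv⟩
  choose a ha using hcrt
  have ha' : ∀ j, j < 2 → ∀ v ∈ T, Ideal.Quotient.mk v.asIdeal (a j) = (f v).coeff j := by
    intro j hj v hv
    rw [← hx v j hj]
    exact (Ideal.Quotient.mk_eq_mk_iff_sub_mem _ _).2 (Ideal.pow_le_self (by norm_num) (ha j v hv))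
  obtain ⟨v₂, hv₂⟩ := exists_v2
  have ha16 : ∀ j, (16 : 𝓞 ℚ) ∣ a j - 1 := by
    intro j
    have h1 := ha j v₂ (hmem v₂ (hmem2 v₂ hv₂))
    rw [hx1 v₂ hv₂ j, span_two v₂ hv₂, Ideal.span_singleton_pow, Ideal.mem_span_singleton] at h1
    refine dvd_trans ?_ h1
    exact ⟨2 ^ 12, by norm_num⟩
  set P : (𝓞 ℚ)[X] := ∑ i ∈ Finset.range 2, C (a i) * X ^ i with hP
  have hPd : P.degree < ((2 : ℕ) : WithBot ℕ) := by
    rw [hP]
    refine lt_of_le_of_lt (degree_sum_le _ _) ?_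
    rw [Finset.sup_lt_iff (WithBot.bot_lt_coe _)]
    intro i hi
    refine lt_of_le_of_lt (degree_C_mul_X_pow_le _ _) ?_
    exact_mod_cast Finset.mem_range.mp hi
  have hPd2 : P.degree < ((3 : ℕ) : WithBot ℕ) :=
    hPd.trans (by exact_mod_cast (by omega : 2 < 3))
  have hnd : (X ^ 3 + P).natDegree = 3 := by
    rw [natDegree_add_eq_left_of_degree_lt (by rw [degree_X_pow]; exact hPd2), natDegree_X_pow]
  have hmap : ∀ v ∈ T, rv v (X ^ 3 + P) = f v := by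
    intro v hv
    conv_rhs => rw [(hf1 v).as_sum, hf2 v]
    rw [rv, Polynomial.map_add, Polynomial.map_pow, map_X, hP, Polynomial.map_sum]
    congr 1
    rw [Finset.sum_range_succ _ 2, hf3 v, C_0, zero_mul, add_zero]
    refine Finset.sum_congr rfl fun i hi => ?_
    rw [Polynomial.map_mul, map_C, Polynomial.map_pow, map_X, ha' i (Finset.mem_range.1 hi) v hv]
  have hc : ∀ j, j < 2 → (X ^ 3 + P).coeff j = a j := by
    intro j hj
    rw [coeff_add, coeff_X_pow, if_neg (by omega), zero_add, hP, finset_sum_coeff]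
    simp only [coeff_C_mul, coeff_X_pow]
    rw [Finset.sum_eq_single j]
    · simp
    · intro i _ hi
      rw [if_neg (fun h => hi h.symm), mul_zero]
    · intro h
      exact absurd (Finset.mem_range.2 hj) h
  refine ⟨W, X ^ 3 + P, monic_X_pow_add hPd2, hnd, ?_, hW0, h2W, ?_, ?_,
    fun p hp hpM => hWp p hp (hpM.trans (le_max_left _ _)), ?_, h16, ?_, ?_⟩
  · rw [coeff_add, coeff_X_pow, if_neg (by omega), coeff_eq_zero_of_degree_lt hPd, add_zero]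
  · intro v hv
    rw [hmap v (hmem v (hmem2 v hv))]
    exact hf4 v
  · intro v hv
    rw [hmap v (hmem v hv)]
    exact hf5 v
  · intro v hv
    rw [hmap v (hmem v hv)]
    exact hf4 v
  · rw [hc 1 (by norm_num)]
    exact ha16 1
  · rw [hc 0 (by norm_num)]
    exact ha16 0

end Pool.Agent.Run7.h942.DI
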