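import Pool.Agent.Run7.h245.DI.Iface
import Pool.Agent.Run7.h942.DI.GF2a

/-!
# Project DI, piece GF2
-/

set_option autoImplicit false

namespace Pool.Agent.Run7.h942.DI

/-- Piece GF2 of project DI. -/
theorem t_GF2 : Pool.Agent.Run7.h245.DI.S_GF2 := fun M => gf2 M

end Pool.Agent.Run7.h942.DI
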